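import Mathlib
import Pool.Agent.Helper206.Cover.Geometry

/-!
# A covering family of pseudoholomorphic spheres without regular members

On the compact eight-manifold `X = P¹ × T³ × T³` (with coordinates `z ∈ P¹ ⊂ ℝ³`, `a, b`) there is
a symplectic form `ω` and an `ω`-compatible almost complex structure `J`, both invariant under the
translations of the torus `T³ × T³`, such that all the spheres `P¹ × {(a, b)}` are
`J`-holomorphic, but none of them is regular: `D_u` is never surjective.
-/

open scoped Manifold ContDiff Topology
open Metric Set Bundle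
open Pool.Agent.Helper206.Cover (R3 P1 cross dInc jP1 EndoField AlmostKahler endoInChart E2 T3 Y IY
  EY KY uF)

noncomputable section

namespace Pool.Agent.Results.MP_143d65_gt.CoveringSpheres

section Maps

variable
  {E : Type*} [NormedAddCommGroup E] [NormedSpace ℝ E] {H : Type*} [TopologicalSpace H]
  {I : ModelWithCorners ℝ E H} {X : Type*} [TopologicalSpace X] [ChartedSpace H X]
  [IsManifold I ∞ X]
  {E' : Type*} [NormedAddCommGroup E'] [NormedSpace ℝ E'] {H' : Type*} [TopologicalSpace H']
  {I' : ModelWithCorners ℝ E' H'} {S : Type*} [TopologicalSpace S] [ChartedSpace H' S]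
  [IsManifold I' ∞ S]

/-- The map `u` from `S`, with complex structure `j`, to the almost Kähler manifold `X` is
`J`-holomorphic: it is smooth and `du ∘ j = J ∘ du`. -/
def IsHolomorphic (j : EndoField I' S) (K : AlmostKahler I X) (u : S → X) : Prop :=
  ContMDiff I' I ∞ u ∧
    ∀ (z : S) (w : TangentSpace I' z), mfderiv I' I u z (j z w) = K.J (u z) (mfderiv I' I u z w)

variable (I I') in
/-- `ξ` is a smooth vector field along `u`, that is a smooth section of `u^* TX`. -/
def IsSmoothAlong (u : S → X) (ξ : (z : S) → TangentSpace I (u z)) : Prop :=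
  ContMDiff I' I.tangent ∞ (fun z => (⟨u z, ξ z⟩ : TangentBundle I X))

/-- `η` is a smooth `(0,1)`-form on `S` with values in `u^* TX`: `η ∘ j = - J ∘ η`, and `η` maps
smooth vector fields on `S` to smooth sections of `u^* TX`. -/
def IsForm01 (j : EndoField I' S) (K : AlmostKahler I X) (u : S → X)
    (η : (z : S) → TangentSpace I' z →L[ℝ] TangentSpace I (u z)) : Prop :=
  (∀ (z : S) (w : TangentSpace I' z), η z (j z w) = -(K.J (u z) (η z w))) ∧
    ∀ V : (z : S) → TangentSpace I' z,
      ContMDiff I' I'.tangent ∞ (fun z => (⟨z, V z⟩ : TangentBundle I' S)) →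
      IsSmoothAlong I I' u (fun z => η z (V z))

/-- The vector field `ξ` along `u` in the preferred chart `φ` of `X` at `u z₀`: `z ↦ dφ (ξ z)`. -/
def fieldInChart (u : S → X) (ξ : (z : S) → TangentSpace I (u z)) (z₀ z : S) : E :=
  mvfderiv I (extChartAt I (u z₀)) (u z) (ξ z)

/-- The linearisation `D_u` at `u` of the Cauchy-Riemann operator
`u ↦ ½ (du + J(u) ∘ du ∘ j)`, applied to the vector field `ξ` along `u` and evaluated at the
tangent vector `w` of `S` at `z`. It is computed in the preferred chart of `X` at `u z`, in which
it is `½ (dξ(w) + J(u) dξ(j w) + (∂_ξ J)(u) du(j w))` (at a `J`-holomorphic `u` this is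
independent of the chart). -/
def linearization (j : EndoField I' S) (K : AlmostKahler I X) (u : S → X)
    (ξ : (z : S) → TangentSpace I (u z)) (z : S) (w : TangentSpace I' z) :
    TangentSpace I (u z) :=
  let dξ : TangentSpace I' z →L[ℝ] TangentSpace I (u z) := mvfderiv I' (fieldInChart u ξ z) z
  let dJ : TangentSpace I (u z) →L[ℝ] TangentSpace I (u z) :=
    fderiv ℝ (endoInChart K.J (u z)) (extChartAt I (u z) (u z)) (ξ z)
  (1 / 2 : ℝ) • (dξ w + K.J (u z) (dξ (j z w)) + dJ (mfderiv I' I u z (j z w)))

/-- `u` is regular: its linearised operator `D_u : Γ(u^* TX) → Ω^{0,1}(S; u^* TX)` is onto, that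
is its cokernel `H¹(S; u^* TX)` vanishes. -/
def IsRegular (j : EndoField I' S) (K : AlmostKahler I X) (u : S → X) : Prop :=
  ∀ η : (z : S) → TangentSpace I' z →L[ℝ] TangentSpace I (u z), IsForm01 j K u η →
    ∃ ξ : (z : S) → TangentSpace I (u z), IsSmoothAlong I I' u ξ ∧
      ∀ (z : S) (w : TangentSpace I' z), linearization j K u ξ z w = η z w

variable {F : Type*} [NormedAddCommGroup F] [NormedSpace ℝ F] {G : Type*} [TopologicalSpace G]
  (L : ModelWithCorners ℝ F G) {B : Type*} [TopologicalSpace B] [ChartedSpace G B]

/-- `(u_b)`, `b ∈ B`, is a smooth family of `J`-holomorphic maps `S → X` whose images cover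
`X`. -/
structure IsCoveringFamily (j : EndoField I' S) (K : AlmostKahler I X) (u : B → S → X) :
    Prop where
  /-- the map `(b, z) ↦ u_b(z)` is smooth -/
  smooth : ContMDiff (L.prod I') I ∞ (fun q : B × S => u q.1 q.2)
  /-- every `u_b` is `J`-holomorphic -/
  holomorphic : ∀ b, IsHolomorphic j K (u b)
  /-- every point of `X` lies on the image of some `u_b` -/
  covers : ∀ x : X, ∃ b z, u b z = x

/-- A generic member of the family is regular: `u_b` is regular for all `b` in an open dense
subset of `B`. -/
def GenericMemberRegular (j : EndoField I' S) (K : AlmostKahler I X) (u : B → S → X) : Prop :=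
  ∃ O : Set B, IsOpen O ∧ Dense O ∧ ∀ b ∈ O, IsRegular j K (u b)

/-- `j` is the rotation by the angle `π / 2` of the tangent planes of the sphere `ι : S → R3`
about the outward normal: `dι (j w) = ι z × dι w` for `w` tangent to `S` at `z`. For the unit
sphere, with `ι` the inclusion in `R3`, this is the complex structure of the Riemann sphere. -/
def IsRotation (ι : S → R3) (j : EndoField I' S) : Prop :=
  ∀ (z : S) (w : TangentSpace I' z), mvfderiv I' ι z (j z w) = cross (ι z) (mvfderiv I' ι z w)

/-- There are a compact connected symplectic manifold `X` without boundary, of dimension `8`, a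
compatible almost complex structure `J` and a smooth family of `J`-holomorphic maps
`u_b : S → X`, with parameter space `B` a compact connected manifold of dimension `6`, which
covers `X` and none of whose members is regular; in particular a generic member is not regular.
Moreover the `u_b` are injective immersions with pairwise disjoint images. -/
def HasNonregularCoveringFamily (j : EndoField I' S) : Prop :=
    ∃ (E : Type) (_ : NormedAddCommGroup E) (_ : NormedSpace ℝ E) (_ : FiniteDimensional ℝ E)
      (H : Type) (_ : TopologicalSpace H) (I : ModelWithCorners ℝ E H) (_ : I.Boundaryless)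
      (X : Type) (_ : TopologicalSpace X) (_ : ChartedSpace H X) (_ : IsManifold I ∞ X)
      (_ : CompactSpace X) (_ : T2Space X) (_ : SecondCountableTopology X) (_ : ConnectedSpace X)
      (K : AlmostKahler I X)
      (F : Type) (_ : NormedAddCommGroup F) (_ : NormedSpace ℝ F) (_ : FiniteDimensional ℝ F)
      (G : Type) (_ : TopologicalSpace G) (L : ModelWithCorners ℝ F G) (_ : L.Boundaryless)
      (B : Type) (_ : TopologicalSpace B) (_ : ChartedSpace G B) (_ : IsManifold L ∞ B)
      (_ : CompactSpace B) (_ : T2Space B) (_ : SecondCountableTopology B) (_ : ConnectedSpace B)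
      (u : B → S → X),
      Module.finrank ℝ E = 8 ∧ Module.finrank ℝ F = 6 ∧
      IsCoveringFamily L j K u ∧
      (∀ b, ¬ IsRegular j K (u b)) ∧
      ¬ GenericMemberRegular j K u ∧
      (∀ b b' z z', u b z = u b' z' → b = b' ∧ z = z') ∧
      (∀ b z, Function.Injective (mfderiv I' I (u b) z))

end Maps

theorem connectedSpace_P1 : ConnectedSpace P1 := by
  apply isConnected_iff_connectedSpace.1
  apply isConnected_sphere
  · rw [← Module.finrank_eq_rank, finrank_euclideanSpace_fin]
    norm_num
  · norm_num

/-- There are a compact symplectic manifold `X` with a compatible almost complex structure and a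
covering family of `J`-holomorphic spheres `u_b : P¹ → X` none of whose members is regular. Here
`P¹` is the unit sphere `P1` of `R3`, with the smooth structure of Mathlib and the complex
structure `j w = z × w`. -/
theorem result :
    ∃ j : EndoField (𝓡 2) P1, IsRotation (fun z : P1 => (z : R3)) j ∧
      HasNonregularCoveringFamily j := by
  have := connectedSpace_P1
  have : SecondCountableTopology (ModelProd E2 (ModelProd R3 R3)) :=
    inferInstanceAs (SecondCountableTopology (E2 × (R3 × R3)))
  have : SecondCountableTopology (ModelProd R3 R3) :=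
    inferInstanceAs (SecondCountableTopology (R3 × R3))
  have hreg : ∀ b, ¬ IsRegular (I' := 𝓡 2) jP1 KY (uF b) := Pool.Agent.Helper206.Cover.not_isRegular
  refine ⟨jP1, Pool.Agent.Helper206.Cover.dInc_jP1, EY, inferInstance, inferInstance,
    inferInstance, ModelProd E2 (ModelProd R3 R3),
    inferInstance, IY, inferInstance, Y, inferInstance, inferInstance, inferInstance,
    inferInstance, inferInstance, ?_, inferInstance, KY, R3 × R3, inferInstance, inferInstance,
    inferInstance, ModelProd R3 R3, inferInstance, 𝓘(ℝ, R3).prod 𝓘(ℝ, R3), inferInstance,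
    T3 × T3, inferInstance, inferInstance, inferInstance, inferInstance, inferInstance, ?_,
    inferInstance, uF, ?_, ?_, ⟨Pool.Agent.Helper206.Cover.contMDiff_uF,
      Pool.Agent.Helper206.Cover.isHolomorphic_uF, ?_⟩, hreg, ?_, ?_, ?_⟩
  · exact ChartedSpace.secondCountable_of_sigmaCompact (ModelProd E2 (ModelProd R3 R3)) Y
  · exact ChartedSpace.secondCountable_of_sigmaCompact (ModelProd R3 R3) (T3 × T3)
  · simp [Module.finrank_prod]
  · simp [Module.finrank_prod]
  · rintro ⟨z, p⟩
    exact ⟨p, z, rfl⟩
  · rintro ⟨O, _, hd, hO⟩
    obtain ⟨b, hb⟩ := hd.nonempty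
    exact hreg b (hO b hb)
  · intro b b' z z' h
    exact ⟨congrArg Prod.snd h, congrArg Prod.fst h⟩
  · intro b z w w' h
    have h1 := Pool.Agent.Helper206.Cover.mfderiv_uF b z w
    have h2 := Pool.Agent.Helper206.Cover.mfderiv_uF b z w'
    exact congrArg Prod.fst (h1.symm.trans (h.trans h2))

end Pool.Agent.Results.MP_143d65_gt.CoveringSpheres
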